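import Mathlib
import Pool.Agent.EW.RC.R0

/-!
# The geometric representation of a Coxeter system (MP_272625_co)

For every Coxeter system `cs : CoxeterSystem M W` the geometric representation of `W` on
`B →₀ ℝ`, its roots, and the description of the left inversions of an element by roots.
-/

open Module

namespace BP

variable {B W : Type} [Group W] {M : CoxeterMatrix B} (cs : CoxeterSystem M W)

/-- the simple root -/
noncomputable def al (s : B) : B →₀ ℝ := Finsupp.single s 1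

/-- the simple coroot -/
noncomputable def fc (M : CoxeterMatrix B) (s : B) : (B →₀ ℝ) →ₗ[ℝ] ℝ :=
  Finsupp.linearCombination ℝ (fun t => -2 * Real.cos (Real.pi / (M t s : ℝ)))

theorem fc_al (s t : B) : fc M t (al s) = -2 * Real.cos (Real.pi / (M s t : ℝ)) := by
  unfold fc al
  rw [Finsupp.linearCombination_single, one_smul]

theorem fc_self (s : B) : fc M s (al s) = 2 := by
  rw [fc_al, M.diagonal s]
  simp

/-- the simple reflection -/
noncomputable def rf (M : CoxeterMatrix B) (s : B) : (B →₀ ℝ) ≃ₗ[ℝ] (B →₀ ℝ) :=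
  reflection (fc_self (M := M) s)

theorem rf_apply (s : B) (v : B →₀ ℝ) : rf M s v = v - fc M s v • al s := by
  unfold rf
  rw [reflection_apply]

theorem S_even {m : ℕ} (k : ℕ) (hk : 2 ≤ k) (hm : m = 2 * k) :
    (Polynomial.Chebyshev.S ℝ ((k : ℤ) - 1)).eval (2 * Real.cos (2 * Real.pi / m)) = 0 := by
  have h1 := Polynomial.Chebyshev.S_two_mul_real_cos (2 * Real.pi / m) ((k : ℤ) - 1)
  have hk0 : (0 : ℝ) < k := by exact_mod_cast (by omega : 0 < k)
  have h2 : (((k : ℤ) - 1 : ℤ) : ℝ) + 1 = k := by push_cast; ring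
  have h3 : (k : ℝ) * (2 * Real.pi / m) = Real.pi := by
    rw [hm]; push_cast; field_simp
  rw [h2, h3, Real.sin_pi] at h1
  have h4 : 0 < Real.sin (2 * Real.pi / m) := by
    apply Real.sin_pos_of_pos_of_lt_pi
    · rw [hm]; push_cast; positivity
    · rw [hm]; push_cast
      rw [div_lt_iff₀ (by positivity)]
      have : (2 : ℝ) ≤ k := by exact_mod_cast hk
      nlinarith [Real.pi_pos]
  rcases mul_eq_zero.mp h1 with h | h
  · exact h
  · linarith

theorem S_odd {m : ℕ} (k : ℕ) (hk : 1 ≤ k) (hm : m = 2 * k + 1) :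
    (Polynomial.Chebyshev.S ℝ (k : ℤ)).eval (2 * Real.cos (2 * Real.pi / m)) +
      (Polynomial.Chebyshev.S ℝ ((k : ℤ) - 1)).eval (2 * Real.cos (2 * Real.pi / m)) = 0 := by
  have h1 := Polynomial.Chebyshev.S_two_mul_real_cos (2 * Real.pi / m) ((k : ℤ) - 1)
  have h1' := Polynomial.Chebyshev.S_two_mul_real_cos (2 * Real.pi / m) (k : ℤ)
  have hk0 : (0 : ℝ) < k := by exact_mod_cast (by omega : 0 < k)
  have h2 : (((k : ℤ) - 1 : ℤ) : ℝ) + 1 = k := by push_cast; ring
  have h3 : (((k : ℤ) : ℝ) + 1) * (2 * Real.pi / m) = 2 * Real.pi - (k : ℝ) * (2 * Real.pi / m) := by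
    rw [hm]; push_cast; field_simp; ring
  rw [h2] at h1
  rw [h3, Real.sin_two_pi_sub] at h1'
  have h4 : 0 < Real.sin (2 * Real.pi / m) := by
    apply Real.sin_pos_of_pos_of_lt_pi
    · rw [hm]; push_cast; positivity
    · rw [hm]; push_cast
      rw [div_lt_iff₀ (by positivity)]
      have : (1 : ℝ) ≤ k := by exact_mod_cast hk
      nlinarith [Real.pi_pos]
  have h5 : ((Polynomial.Chebyshev.S ℝ (k : ℤ)).eval (2 * Real.cos (2 * Real.pi / m)) +
      (Polynomial.Chebyshev.S ℝ ((k : ℤ) - 1)).eval (2 * Real.cos (2 * Real.pi / m))) *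
        Real.sin (2 * Real.pi / m) = 0 := by
    rw [add_mul, h1, h1']; ring
  rcases mul_eq_zero.mp h5 with h | h
  · exact h
  · linarith

theorem rf_pow (s t : B) : (rf M s * rf M t) ^ M s t = 1 := by
  rcases eq_or_ne s t with rfl | hst
  · rw [M.diagonal s, pow_one]
    apply LinearEquiv.ext
    intro v
    exact involutive_reflection (fc_self (M := M) s) v
  have hm1 : M s t ≠ 1 := fun h => hst (by
    by_contra
    exact M.off_diagonal s t hst h)
  rcases Nat.eq_zero_or_pos (M s t) with h0 | hpos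
  · rw [h0, pow_zero]
  have hm2 : 2 ≤ M s t := by omega
  apply LinearEquiv.ext
  intro z
  set m := M s t with hmdef
  have hy : fc M s (al t) = -2 * Real.cos (Real.pi / (m : ℝ)) := by
    rw [fc_al, M.symmetric t s]
  have hx : fc M t (al s) = -2 * Real.cos (Real.pi / (m : ℝ)) := by
    rw [fc_al]
  have htt : 2 * Real.cos (2 * Real.pi / m) = fc M s (al t) * fc M t (al s) - 2 := by
    rw [hx, hy]
    have : 2 * Real.pi / (m : ℝ) = 2 * (Real.pi / m) := by ring
    rw [this, Real.cos_two_mul]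
    ring
  have key := reflection_mul_reflection_pow_apply (fc_self (M := M) s) (fc_self (M := M) t) m z
    (2 * Real.cos (2 * Real.pi / m)) htt
  change ((rf M s * rf M t) ^ m) z = z
  unfold rf
  rw [key]
  rcases Nat.even_or_odd' m with ⟨k, hk | hk⟩
  · rcases Nat.lt_or_ge k 2 with hk2 | hk2
    · have hk1 : k = 1 := by omega
      subst hk1
      have hm : m = 2 := by omega
      have e1 : ((m : ℤ) - 2) / 2 = 0 := by rw [hm]; norm_num
      have e2 : ((m : ℤ) - 1) / 2 = 0 := by rw [hm]; norm_num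
      have e3 : ((m : ℤ) - 3) / 2 = -1 := by rw [hm]; norm_num
      have e4 : (m : ℤ) / 2 = 1 := by rw [hm]; norm_num
      have hc : Real.cos (Real.pi / (m : ℝ)) = 0 := by
        rw [hm]; push_cast; exact Real.cos_pi_div_two
      rw [hc] at hx hy
      have ht : 2 * Real.cos (2 * Real.pi / m) = -2 := by rw [htt, hx, hy]; ring
      rw [e1, e2, e3, e4, ht, hx, hy]
      simp only [Polynomial.Chebyshev.S_zero, Polynomial.Chebyshev.S_one,
        Polynomial.Chebyshev.S_neg_one, Polynomial.eval_one, Polynomial.eval_X,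
        Polynomial.eval_zero]
      module
    · have e1 : ((m : ℤ) - 2) / 2 = (k : ℤ) - 1 := by omega
      have e2 : ((m : ℤ) - 1) / 2 = (k : ℤ) - 1 := by omega
      rw [e1, e2, S_even k hk2 hk]
      simp
  · have hk1 : 1 ≤ k := by omega
    have e1 : ((m : ℤ) - 2) / 2 = (k : ℤ) - 1 := by omega
    have e2 : ((m : ℤ) - 1) / 2 = (k : ℤ) := by omega
    have e3 : ((m : ℤ) - 3) / 2 = (k : ℤ) - 1 := by omega
    have e4 : (m : ℤ) / 2 = (k : ℤ) := by omega
    rw [e1, e2, e3, e4, S_odd k hk1 hk]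
    simp

theorem liftable (M : CoxeterMatrix B) : M.IsLiftable
    (fun s => ((rf M s : (B →₀ ℝ) ≃ₗ[ℝ] (B →₀ ℝ)) : Module.End ℝ (B →₀ ℝ))) := by
  intro s t
  have h := congrArg (fun e : (B →₀ ℝ) ≃ₗ[ℝ] (B →₀ ℝ) =>
    (e : Module.End ℝ (B →₀ ℝ))) (rf_pow (M := M) s t)
  have h2 : ∀ (n : ℕ), (((rf M s * rf M t) ^ n : (B →₀ ℝ) ≃ₗ[ℝ] (B →₀ ℝ)) :
      Module.End ℝ (B →₀ ℝ)) = (((rf M s : (B →₀ ℝ) ≃ₗ[ℝ] (B →₀ ℝ)) : Module.End ℝ (B →₀ ℝ)) *
        ((rf M t : (B →₀ ℝ) ≃ₗ[ℝ] (B →₀ ℝ)) : Module.End ℝ (B →₀ ℝ))) ^ n := by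
    intro n
    induction n with
    | zero => rfl
    | succ n ih => rw [pow_succ, pow_succ, ← ih]; rfl
  rw [← h2]
  exact h

/-- the geometric representation -/
noncomputable def rho : W →* Module.End ℝ (B →₀ ℝ) := cs.lift ⟨_, liftable M⟩

theorem rho_s (s : B) (v : B →₀ ℝ) : rho cs (cs.simple s) v = v - fc M s v • al s := by
  unfold rho
  rw [cs.lift_apply_simple]
  exact rf_apply s v

end BP
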