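import Mathlib
import Pool.Agent.Helper98.BP.Geo

/-!
# Roots and inversions (MP_272625_co)
-/

namespace BP

variable {B W : Type} [Group W] {M : CoxeterMatrix B} (cs : CoxeterSystem M W)

/-- non-negative vectors -/
def Pos (v : B →₀ ℝ) : Prop := ∀ b, 0 ≤ v b

theorem rho_mul (w w' : W) (v : B →₀ ℝ) : rho cs (w * w') v = rho cs w (rho cs w' v) := by
  rw [map_mul]; rfl

theorem rho_one (v : B →₀ ℝ) : rho cs 1 v = v := by
  rw [map_one]; rfl

theorem rho_inv_self (w : W) (v : B →₀ ℝ) : rho cs w⁻¹ (rho cs w v) = v := by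
  rw [← rho_mul, inv_mul_cancel, rho_one]

theorem rho_self_inv (w : W) (v : B →₀ ℝ) : rho cs w (rho cs w⁻¹ v) = v := by
  rw [← rho_mul, mul_inv_cancel, rho_one]

theorem rho_simple_self (s : B) : rho cs (cs.simple s) (al s) = -al s := by
  rw [rho_s, fc_self, two_smul]
  abel

theorem rho_simple_self' (w : W) (s : B) :
    rho cs (w * cs.simple s) (al s) = -rho cs w (al s) := by
  rw [rho_mul, rho_simple_self, map_neg]

theorem al_ne (s : B) : al s ≠ 0 := by
  unfold al
  rw [Ne, Finsupp.single_eq_zero]
  exact one_ne_zero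

theorem rho_al_ne (w : W) (s : B) : rho cs w (al s) ≠ 0 := by
  intro h
  have h1 := rho_inv_self cs w (al s)
  rw [h, map_zero] at h1
  exact al_ne s h1.symm

theorem not_pos_neg {v : B →₀ ℝ} (hv : v ≠ 0) (h : Pos v) (h' : Pos (-v)) : False := by
  apply hv
  ext b
  have h1 := h b
  have h2 := h' b
  rw [Finsupp.neg_apply] at h2
  rw [Finsupp.zero_apply]
  linarith

theorem pos_of_lt (w : W) (s : B) (h : cs.length w < cs.length (w * cs.simple s)) :
    Pos (rho cs w (al s)) := by
  obtain ⟨c, hc, he⟩ := RC.tits cs (rho cs) al (fc M) (rho_s cs) (fun s t => fc_al s t) w s h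
  have h1 : c.sum (fun t x => x • al t) = c := by
    unfold al
    simp
  rw [he, h1]
  exact hc

theorem neg_of_lt (w : W) (s : B) (h : cs.length (w * cs.simple s) < cs.length w) :
    Pos (-rho cs w (al s)) := by
  rw [← rho_simple_self']
  apply pos_of_lt
  rwa [cs.simple_mul_simple_cancel_right]

theorem pos_iff (w : W) (s : B) :
    Pos (rho cs w (al s)) ↔ cs.length w < cs.length (w * cs.simple s) := by
  refine ⟨fun h => ?_, pos_of_lt cs w s⟩
  by_contra h1
  have h2 : cs.length (w * cs.simple s) < cs.length w := by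
    have := cs.length_mul_simple_ne w s
    omega
  exact not_pos_neg (rho_al_ne cs w s) h (neg_of_lt cs w s h2)

theorem pos_or_neg (w : W) (s : B) :
    Pos (rho cs w (al s)) ∨ Pos (-rho cs w (al s)) := by
  have := cs.length_mul_simple_ne w s
  rcases Nat.lt_or_gt_of_ne this with h | h
  · exact Or.inr (neg_of_lt cs w s h)
  · exact Or.inl (pos_of_lt cs w s h)

/-- the bilinear form -/
noncomputable def bf (M : CoxeterMatrix B) : (B →₀ ℝ) →ₗ[ℝ] ((B →₀ ℝ) →ₗ[ℝ] ℝ) :=
  Finsupp.linearCombination ℝ (fc M)

theorem bf_single (s : B) (a : ℝ) : bf M (Finsupp.single s a) = a • fc M s :=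
  Finsupp.linearCombination_single ℝ a s

theorem bf_al (x : B →₀ ℝ) (s : B) : bf M x (al s) = fc M s x := by
  induction x using Finsupp.induction_linear with
  | zero => simp
  | add x y hx hy => rw [map_add, LinearMap.add_apply, hx, hy, map_add]
  | single t a =>
    have h : Finsupp.single t a = a • al t := by
      unfold al
      simp
    rw [bf_single, LinearMap.smul_apply, h, map_smul, fc_al, fc_al, M.symmetric s t]

theorem bf_rho (w : W) (s : B) : ∀ v, bf M (rho cs w (al s)) v = fc M s (rho cs w⁻¹ v) := by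
  induction w using cs.simple_induction_left with
  | one =>
    intro v
    rw [rho_one, inv_one, rho_one]
    unfold al
    rw [bf_single, one_smul]
  | mul_simple_left w t ih =>
    intro v
    have h1 := ih (al t)
    rw [bf_al] at h1
    rw [rho_mul, rho_s, map_sub, map_smul, LinearMap.sub_apply, LinearMap.smul_apply, ih,
      mul_inv_rev, cs.inv_simple, rho_mul, rho_s cs t v, map_sub, map_sub, map_smul, map_smul,
      ← h1]
    have h2 : bf M (al t) v = fc M t v := by
      unfold al
      rw [bf_single, one_smul]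
    rw [h2, smul_eq_mul, smul_eq_mul]
    ring

theorem refl_apply (w : W) (s : B) (v : B →₀ ℝ) :
    rho cs (w * cs.simple s * w⁻¹) v = v - bf M (rho cs w (al s)) v • rho cs w (al s) := by
  rw [rho_mul, rho_mul, rho_s, map_sub, rho_self_inv, map_smul, bf_rho]

theorem bf_self (w : W) (s : B) : bf M (rho cs w (al s)) (rho cs w (al s)) = 2 := by
  rw [bf_rho, rho_inv_self, fc_self]

theorem rho_inj {w w' : W} (h : rho cs w = rho cs w') : w = w' := by
  have h1 : rho cs (w'⁻¹ * w) = 1 := by
    rw [map_mul, h, ← map_mul, inv_mul_cancel, map_one]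
  by_contra hne
  have h2 : w'⁻¹ * w ≠ 1 := by
    intro h3
    apply hne
    calc w = w' * (w'⁻¹ * w) := by group
      _ = w' := by rw [h3, mul_one]
  obtain ⟨s, hs⟩ := cs.exists_rightDescent_of_ne_one h2
  have h3 := neg_of_lt cs _ s hs
  rw [h1] at h3
  have h4 : Pos (al s) := by
    classical
    intro b
    unfold al
    rw [Finsupp.single_apply]
    split_ifs <;> norm_num
  exact not_pos_neg (al_ne s) h4 h3

/-- proportional roots have the same reflection -/
theorem refl_unique {w w' : W} {s s' : B} {c : ℝ}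
    (h : rho cs w (al s) = c • rho cs w' (al s')) :
    w * cs.simple s * w⁻¹ = w' * cs.simple s' * w'⁻¹ := by
  apply rho_inj cs
  apply LinearMap.ext
  intro v
  have h1 := bf_self cs w s
  rw [h, map_smul, map_smul, LinearMap.smul_apply, bf_self, smul_eq_mul, smul_eq_mul] at h1
  have h2 : c * c = 1 := by linarith
  rw [refl_apply, refl_apply, h, map_smul, LinearMap.smul_apply, smul_eq_mul, smul_smul]
  congr 2
  calc c * bf M (rho cs w' (al s')) v * c = (c * c) * bf M (rho cs w' (al s')) v := by ring
    _ = _ := by rw [h2, one_mul]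

/-- a root which is a non-negative multiple of a root is this root -/
theorem root_smul {w w' : W} {s s' : B} {c : ℝ} (hc : 0 ≤ c)
    (h : rho cs w (al s) = c • rho cs w' (al s')) : c = 1 := by
  have h1 := bf_self cs w s
  rw [h, map_smul, map_smul, LinearMap.smul_apply, bf_self, smul_eq_mul, smul_eq_mul] at h1
  have h2 : c * c = 1 := by linarith
  nlinarith

/-- a simple reflection permutes the other positive roots -/
theorem simple_pos {w : W} {t : B} (h : Pos (rho cs w (al t))) (s : B)
    (hne : rho cs w (al t) ≠ al s) : Pos (rho cs (cs.simple s) (rho cs w (al t))) := by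
  classical
  have h1 := pos_or_neg cs (cs.simple s * w) t
  rw [rho_mul] at h1
  rcases h1 with h1 | h1
  · exact h1
  · exfalso
    have h4 : rho cs w (al t) = (rho cs w (al t) s) • rho cs 1 (al s) := by
      rw [rho_one]
      ext u
      unfold al
      rcases eq_or_ne u s with rfl | hu
      · simp
      · have h2 := h u
        have h3 := h1 u
        rw [rho_s, Finsupp.neg_apply, Finsupp.sub_apply, Finsupp.smul_apply] at h3
        have h5 : (al s : B →₀ ℝ) u = 0 := by
          unfold al
          rw [Finsupp.single_apply, if_neg (Ne.symm hu)]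
        rw [h5, smul_zero, sub_zero] at h3
        rw [Finsupp.smul_apply, Finsupp.single_apply, if_neg (Ne.symm hu), smul_zero]
        unfold al at h2 h3
        linarith
    have h6 := root_smul cs (h s) h4
    rw [h6, one_smul, rho_one] at h4
    exact hne h4

theorem inv_aux : ∀ (n : ℕ) (w : W) (s : B) (y : W), cs.length y = n →
    Pos (rho cs w (al s)) → Pos (-rho cs y⁻¹ (rho cs w (al s))) →
    cs.length (w * cs.simple s * w⁻¹ * y) < cs.length y := by
  intro n
  induction n with
  | zero =>
    intro w s y hy h h'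
    rw [cs.length_eq_zero_iff] at hy
    subst hy
    rw [inv_one, rho_one] at h'
    exact (not_pos_neg (rho_al_ne cs w s) h h').elim
  | succ n ih =>
    intro w s y hy h h'
    have hy1 : y ≠ 1 := by
      rintro rfl
      rw [cs.length_one] at hy
      omega
    obtain ⟨t, ht⟩ := cs.exists_leftDescent_of_ne_one hy1
    rw [cs.isLeftDescent_iff] at ht
    by_cases hb : rho cs w (al s) = al t
    · have h1 : w * cs.simple s * w⁻¹ = 1 * cs.simple t * 1⁻¹ := by
        apply refl_unique cs (c := 1)
        rw [rho_one, one_smul, hb]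
      rw [h1, one_mul, inv_one, mul_one]
      omega
    · have h1 := simple_pos cs h t hb
      rw [← rho_mul] at h1
      have h2 := ih (cs.simple t * w) s (cs.simple t * y) (by omega) h1
      have h3 : rho cs (cs.simple t * y)⁻¹ (rho cs (cs.simple t * w) (al s)) =
          rho cs y⁻¹ (rho cs w (al s)) := by
        rw [← rho_mul, ← rho_mul]
        congr 2
        rw [mul_inv_rev, mul_assoc, inv_mul_cancel_left]
      rw [h3] at h2
      have h4 := h2 h'
      have h5 : w * cs.simple s * w⁻¹ * y = cs.simple t *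
          (cs.simple t * w * cs.simple s * (cs.simple t * w)⁻¹ * (cs.simple t * y)) := by
        rw [mul_inv_rev, cs.inv_simple]
        simp only [← mul_assoc]
        rw [cs.simple_mul_simple_self, one_mul, mul_assoc (w * cs.simple s * w⁻¹),
          cs.simple_mul_simple_self, mul_one]
      rw [h5]
      have h6 := cs.length_mul_le (cs.simple t)
        (cs.simple t * w * cs.simple s * (cs.simple t * w)⁻¹ * (cs.simple t * y))
      rw [cs.length_simple] at h6
      omega

/-- `ℓ(t y) < ℓ(y)` iff `y⁻¹ β < 0`, for the reflection `t` of the positive root `β` -/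
theorem inv_iff (w : W) (s : B) (h : Pos (rho cs w (al s))) (y : W) :
    cs.length (w * cs.simple s * w⁻¹ * y) < cs.length y ↔
      Pos (-rho cs y⁻¹ (rho cs w (al s))) := by
  refine ⟨fun h1 => ?_, inv_aux cs _ w s y rfl h⟩
  have h2 := pos_or_neg cs (y⁻¹ * w) s
  rw [rho_mul] at h2
  rcases h2 with h2 | h2
  · exfalso
    have h3 : rho cs (w * cs.simple s * w⁻¹ * y)⁻¹ (rho cs w (al s)) =
        -rho cs y⁻¹ (rho cs w (al s)) := by
      have e : (w * cs.simple s * w⁻¹ * y)⁻¹ = y⁻¹ * (w * cs.simple s * w⁻¹) := by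
        rw [mul_inv_rev, mul_inv_rev, mul_inv_rev, inv_inv, cs.inv_simple]
        simp only [mul_assoc]
      rw [e, rho_mul, refl_apply, bf_self, two_smul, ← map_neg]
      congr 1
      abel
    have h4 := inv_aux cs _ w s (w * cs.simple s * w⁻¹ * y) rfl h (by rwa [h3, neg_neg])
    have h5 : w * cs.simple s * w⁻¹ * (w * cs.simple s * w⁻¹ * y) = y := by
      simp only [← mul_assoc]
      rw [inv_mul_cancel_right, mul_assoc w, cs.simple_mul_simple_self, mul_one,
        mul_inv_cancel, one_mul]
    rw [h5] at h4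
    omega
  · exact h2

/-- every reflection is the reflection of a positive root -/
theorem exists_pos {t : W} (ht : cs.IsReflection t) : ∃ (w : W) (s : B),
    t = w * cs.simple s * w⁻¹ ∧ Pos (rho cs w (al s)) := by
  obtain ⟨w, s, rfl⟩ := ht
  rcases pos_or_neg cs w s with h | h
  · exact ⟨w, s, rfl, h⟩
  · refine ⟨w * cs.simple s, s, ?_, ?_⟩
    · rw [mul_inv_rev, cs.inv_simple]
      have := cs.simple_mul_simple_self s
      calc w * cs.simple s * w⁻¹ = w * (cs.simple s * cs.simple s) * cs.simple s * w⁻¹ := by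
            rw [this, mul_one]
        _ = _ := by group
    · rw [rho_simple_self']
      exact h

/-- the left inversions of a product -/
theorem inv_mul {t : W} (ht : cs.IsReflection t) (x y : W) :
    cs.length (t * (x * y)) < cs.length (x * y) ↔
      ¬ (cs.length (t * x) < cs.length x ↔ cs.length (x⁻¹ * t * x * y) < cs.length y) := by
  obtain ⟨w, s, rfl, hp⟩ := exists_pos cs ht
  rw [inv_iff cs w s hp, inv_iff cs w s hp]
  have e1 : rho cs (x * y)⁻¹ (rho cs w (al s)) = rho cs y⁻¹ (rho cs (x⁻¹ * w) (al s)) := by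
    rw [mul_inv_rev, rho_mul, ← rho_mul cs x⁻¹]
  have e2 : rho cs x⁻¹ (rho cs w (al s)) = rho cs (x⁻¹ * w) (al s) := by
    rw [← rho_mul]
  have e3 : rho cs y⁻¹ (rho cs (x⁻¹ * w) (al s)) = rho cs (y⁻¹ * (x⁻¹ * w)) (al s) := by
    rw [← rho_mul]
  rw [e1, e2]
  rcases pos_or_neg cs (x⁻¹ * w) s with h | h
  · have h1 := inv_iff cs (x⁻¹ * w) s h y
    have h2 : x⁻¹ * w * cs.simple s * (x⁻¹ * w)⁻¹ = x⁻¹ * (w * cs.simple s * w⁻¹) * x := by
      rw [mul_inv_rev, inv_inv]
      simp only [mul_assoc]
    rw [h2] at h1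
    rw [h1]
    have h3 : ¬ Pos (-rho cs (x⁻¹ * w) (al s)) := fun h4 =>
      not_pos_neg (rho_al_ne cs _ s) h h4
    tauto
  · have h0 : Pos (rho cs (x⁻¹ * w * cs.simple s) (al s)) := by
      rw [rho_simple_self']
      exact h
    have h1 := inv_iff cs (x⁻¹ * w * cs.simple s) s h0 y
    have h2 : x⁻¹ * w * cs.simple s * cs.simple s * (x⁻¹ * w * cs.simple s)⁻¹ =
        x⁻¹ * (w * cs.simple s * w⁻¹) * x := by
      rw [mul_inv_rev, mul_inv_rev, inv_inv, cs.inv_simple,
        cs.simple_mul_simple_cancel_right]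
      simp only [mul_assoc]
    rw [h2, rho_simple_self', map_neg, neg_neg] at h1
    rw [h1, e3]
    have h4 := not_pos_neg (rho_al_ne cs (y⁻¹ * (x⁻¹ * w)) s)
    have h5 := pos_or_neg cs (y⁻¹ * (x⁻¹ * w)) s
    tauto

end BP
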