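import Mathlib
import Pool.Agent.Helper98.BP.Roots

/-!
# Weak order, Bruhat paths, and the join theorem (MP_272625_co)
-/

namespace BP

variable {B W : Type} [Group W] {M : CoxeterMatrix B} (cs : CoxeterSystem M W)

/-- weak order -/
def WL (x y : W) : Prop := cs.length x + cs.length (x⁻¹ * y) = cs.length y

/-- `t` is a left inversion of `w` -/
def Nv (w t : W) : Prop := cs.length (t * w) < cs.length w

theorem WL.refl (x : W) : WL cs x x := by
  unfold WL
  rw [inv_mul_cancel, cs.length_one, add_zero]

theorem WL.one (x : W) : WL cs 1 x := by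
  unfold WL
  rw [cs.length_one, inv_one, one_mul, zero_add]

theorem WL.le {x y : W} (h : WL cs x y) : cs.length x ≤ cs.length y := by
  unfold WL at h
  omega

theorem WL.trans {x y z : W} (h : WL cs x y) (h' : WL cs y z) : WL cs x z := by
  unfold WL at *
  have h1 := cs.length_mul_le (x⁻¹ * y) (y⁻¹ * z)
  have e1 : x⁻¹ * y * (y⁻¹ * z) = x⁻¹ * z := by group
  rw [e1] at h1
  have h2 := cs.length_mul_le x (x⁻¹ * z)
  rw [mul_inv_cancel_left] at h2
  omega

theorem WL.nv {x y t : W} (h : WL cs x y) (ht : Nv cs x t) : Nv cs y t := by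
  unfold WL at h
  unfold Nv at *
  have h1 := cs.length_mul_le (t * x) (x⁻¹ * y)
  have e1 : t * x * (x⁻¹ * y) = t * y := by group
  rw [e1] at h1
  omega

theorem not_nv_iff {t : W} (ht : cs.IsReflection t) (w : W) :
    ¬ Nv cs w t ↔ cs.length w < cs.length (t * w) := by
  unfold Nv
  have := ht.length_mul_right_ne w
  omega

theorem nv_mul {t : W} (ht : cs.IsReflection t) (x y : W) :
    Nv cs (x * y) t ↔ ¬ (Nv cs x t ↔ Nv cs y (x⁻¹ * t * x)) := by
  unfold Nv
  exact inv_mul cs ht x y

theorem isRefl_conj {t : W} (ht : cs.IsReflection t) (x : W) :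
    cs.IsReflection (x⁻¹ * t * x) := by
  have := ht.conj x⁻¹
  rwa [inv_inv] at this

theorem nv_simple_iff {t : W} (s : B) : Nv cs (cs.simple s) t ↔ t = cs.simple s := by
  unfold Nv
  rw [cs.length_simple]
  constructor
  · intro h
    have h1 : cs.length (t * cs.simple s) = 0 := by omega
    rw [cs.length_eq_zero_iff] at h1
    have h2 := congrArg (· * cs.simple s) h1
    simp only [one_mul] at h2
    rwa [cs.simple_mul_simple_cancel_right] at h2
  · rintro rfl
    rw [cs.simple_mul_simple_self, cs.length_one]
    exact Nat.zero_lt_one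

/-- left multiplication by a simple reflection -/
theorem nv_simple_mul {t : W} (ht : cs.IsReflection t) (s : B) (hne : t ≠ cs.simple s) (y : W) :
    Nv cs (cs.simple s * y) (cs.simple s * t * cs.simple s) ↔ Nv cs y t := by
  have ht' : cs.IsReflection (cs.simple s * t * cs.simple s) := by
    have := ht.conj (cs.simple s)
    rwa [cs.inv_simple] at this
  rw [nv_mul cs ht', nv_simple_iff, cs.inv_simple]
  have e1 : cs.simple s * (cs.simple s * t * cs.simple s) * cs.simple s = t := by
    simp only [← mul_assoc]
    rw [cs.simple_mul_simple_self, one_mul, cs.simple_mul_simple_cancel_right]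
  rw [e1]
  have h1 : ¬ (cs.simple s * t * cs.simple s = cs.simple s) := by
    intro h
    apply hne
    rw [← e1, h, cs.simple_mul_simple_self, one_mul]
  tauto

/-- right multiplication by a simple reflection -/
theorem nv_mul_simple {t : W} (ht : cs.IsReflection t) (s : B) (y : W)
    (hne : t ≠ y * cs.simple s * y⁻¹) : Nv cs (y * cs.simple s) t ↔ Nv cs y t := by
  rw [nv_mul cs ht, nv_simple_iff]
  have h1 : ¬ (y⁻¹ * t * y = cs.simple s) := by
    intro h
    apply hne
    rw [← h]
    group
  tauto

/-- inclusion of inversion sets gives weak order -/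
theorem wl_of_nv : ∀ (n : ℕ) (u w : W), cs.length u = n →
    (∀ t, cs.IsReflection t → Nv cs u t → Nv cs w t) → WL cs u w := by
  intro n
  induction n with
  | zero =>
    intro u w hu _
    rw [cs.length_eq_zero_iff] at hu
    subst hu
    exact WL.one cs w
  | succ n ih =>
    intro u w hu h
    have hu1 : u ≠ 1 := by
      rintro rfl
      rw [cs.length_one] at hu
      omega
    obtain ⟨s, hs⟩ := cs.exists_leftDescent_of_ne_one hu1
    have hs' := hs
    rw [cs.isLeftDescent_iff] at hs
    have hw : Nv cs w (cs.simple s) := h _ (cs.isReflection_simple s) hs'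
    have hw' : cs.length (cs.simple s * w) + 1 = cs.length w := by
      unfold Nv at hw
      rcases cs.length_simple_mul w s with h1 | h1 <;> omega
    have h2 := ih (cs.simple s * u) (cs.simple s * w) (by omega) (by
      intro t ht hn
      have hts : t ≠ cs.simple s := by
        rintro rfl
        unfold Nv at hn
        rw [cs.simple_mul_simple_cancel_left] at hn
        omega
      have h3 := (nv_simple_mul cs ht s hts (cs.simple s * u)).mpr hn
      rw [cs.simple_mul_simple_cancel_left] at h3
      have ht' : cs.IsReflection (cs.simple s * t * cs.simple s) := by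
        have := ht.conj (cs.simple s)
        rwa [cs.inv_simple] at this
      have h4 := h _ ht' h3
      rw [← nv_simple_mul cs ht s hts, cs.simple_mul_simple_cancel_left]
      exact h4)
    unfold WL at *
    have e : (cs.simple s * u)⁻¹ * (cs.simple s * w) = u⁻¹ * w := by
      rw [mul_inv_rev, mul_assoc, inv_mul_cancel_left]
    rw [e] at h2
    omega

theorem wl_iff (u w : W) :
    WL cs u w ↔ ∀ t, cs.IsReflection t → Nv cs u t → Nv cs w t :=
  ⟨fun h _ _ ht => h.nv cs ht, wl_of_nv cs _ u w rfl⟩

/-- a right descent gives a lower element of weak order -/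
theorem wl_mul_simple {w : W} {s : B} (h : cs.length (w * cs.simple s) < cs.length w) :
    WL cs (w * cs.simple s) w := by
  unfold WL
  have e : (w * cs.simple s)⁻¹ * w = cs.simple s := by
    rw [mul_inv_rev, cs.inv_simple, mul_assoc, inv_mul_cancel, mul_one]
  rw [e, cs.length_simple]
  rcases cs.length_mul_simple w s with h1 | h1 <;> omega

/-- the closedness step -/
theorem closed_step {h u r : W} {s : B} (hr : cs.IsReflection r)
    (hs : cs.length (u * cs.simple s) < cs.length u)
    (hru : Nv cs u r) (hne : r ≠ u * cs.simple s * u⁻¹)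
    (hx : cs.length (r * u) + 1 = cs.length u)
    (hxh : WL cs (r * u) h) (hrh : Nv cs h r) : Nv cs h (u * cs.simple s * u⁻¹) := by
  set t := u * cs.simple s * u⁻¹ with ht
  have htr : cs.IsReflection t := ⟨u, s, ht⟩
  by_cases hc : Nv cs (r * u) t
  · exact hxh.nv cs hc
  obtain ⟨w, b, hrw, hp⟩ := exists_pos cs hr
  set β := rho cs w (al b) with hβ
  -- the inversion rtr of r u
  have h1 : Nv cs (u * cs.simple s) r := by
    have e1 : u * cs.simple s * cs.simple s = u := cs.simple_mul_simple_cancel_right s
    have h2 := nv_mul_simple cs hr s (u * cs.simple s) (by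
      intro h3
      apply hne
      rw [h3, mul_inv_rev, cs.inv_simple, cs.simple_mul_simple_cancel_right, ← mul_assoc])
    rw [e1] at h2
    exact h2.mp hru
  have h2 : cs.length (r * u * cs.simple s) < cs.length (r * u) := by
    unfold Nv at h1
    rw [← mul_assoc] at h1
    have h3 := cs.length_mul_simple u s
    omega
  have hq : cs.IsReflection (r * t * r) := by
    have := htr.conj r
    rwa [hr.inv] at this
  have h3 : Nv cs (r * u) (r * t * r) := by
    unfold Nv
    have e : r * t * r * (r * u) = r * u * cs.simple s := by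
      rw [ht]
      have hrr := hr.mul_self
      calc r * (u * cs.simple s * u⁻¹) * r * (r * u)
          = r * (u * cs.simple s * u⁻¹) * (r * r) * u := by simp only [mul_assoc]
        _ = r * u * cs.simple s := by rw [hrr, mul_one]; group
    rw [e]
    exact h2
  have h4 : Nv cs h (r * t * r) := hxh.nv cs h3
  -- positive root of t : -(u al s)
  have ht2 : t = (u * cs.simple s) * cs.simple s * (u * cs.simple s)⁻¹ := by
    rw [ht, mul_inv_rev, cs.inv_simple, cs.simple_mul_simple_cancel_right]
    simp only [mul_assoc]
  have hpt : Pos (rho cs (u * cs.simple s) (al s)) := by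
    apply pos_of_lt
    rwa [cs.simple_mul_simple_cancel_right]
  have hut : rho cs (u * cs.simple s) (al s) = -rho cs u (al s) := rho_simple_self' cs u s
  set γ := rho cs (u * cs.simple s) (al s) with hγ
  have hrγ : rho cs r γ = γ - bf M β γ • β := by rw [hrw, refl_apply]
  set k := bf M β γ with hk
  -- root of r t r
  have hrtr : r * t * r = (r * u * cs.simple s) * cs.simple s * (r * u * cs.simple s)⁻¹ := by
    rw [cs.simple_mul_simple_cancel_right, mul_inv_rev, mul_inv_rev, cs.inv_simple, hr.inv, ht]
    simp only [mul_assoc]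
  have hroot : rho cs (r * u * cs.simple s) (al s) = rho cs r γ := by
    rw [hγ, mul_assoc, rho_mul]
  have hpq : Pos (rho cs (r * u * cs.simple s) (al s)) := by
    apply pos_of_lt
    rwa [cs.simple_mul_simple_cancel_right]
  -- signs for h
  have a1 : Pos (-rho cs h⁻¹ (rho cs r γ)) := by
    have h5 := (inv_iff cs (r * u * cs.simple s) s hpq h)
    rw [← hrtr, hroot] at h5
    exact h5.mp h4
  have a2 : Pos (-rho cs h⁻¹ β) := by
    have h5 := inv_iff cs w b hp h
    rw [← hrw] at h5
    exact h5.mp hrh
  -- k > 0
  have hkpos : 0 < k := by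
    by_contra hk0
    push Not at hk0
    apply hc
    have h5 := inv_iff cs (u * cs.simple s) s hpt (r * u)
    rw [← ht2] at h5
    apply h5.mpr
    have e1 : rho cs (r * u)⁻¹ γ = rho cs u⁻¹ (rho cs r γ) := by
      rw [mul_inv_rev, hr.inv, rho_mul]
    rw [← hγ, e1, hrγ, map_sub, map_smul]
    have e2 : rho cs u⁻¹ γ = -al s := by rw [hut, map_neg, rho_inv_self]
    have e3 : Pos (-rho cs u⁻¹ β) := by
      have h6 := inv_iff cs w b hp u
      rw [← hrw] at h6
      exact h6.mp hru
    rw [e2]
    intro c
    have h7 := e3 c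
    rw [Finsupp.neg_apply] at h7
    have h8 : 0 ≤ (al s : B →₀ ℝ) c := by
      classical
      unfold al
      rw [Finsupp.single_apply]
      split_ifs <;> norm_num
    rw [Finsupp.neg_apply, Finsupp.sub_apply, Finsupp.neg_apply, Finsupp.smul_apply, smul_eq_mul]
    nlinarith
  -- conclusion
  unfold Nv
  have h5 := inv_iff cs (u * cs.simple s) s hpt h
  rw [← ht2] at h5
  apply h5.mpr
  rw [← hγ]
  have e1 : γ = rho cs r γ + k • β := by rw [hrγ]; abel
  rw [e1, map_add, map_smul]
  intro c
  have h7 := a1 c
  have h8 := a2 c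
  rw [Finsupp.neg_apply] at h7 h8
  rw [Finsupp.neg_apply, Finsupp.add_apply, Finsupp.smul_apply, smul_eq_mul]
  nlinarith

/-- the exchange step -/
theorem exchange_step {u p r : W} {q : B} (hp : cs.length (p * cs.simple q) = cs.length p + 1)
    (hr : r = p * cs.simple q * p⁻¹) (hu : WL cs u (p * cs.simple q)) (hn : Nv cs u r) :
    WL cs (r * u) p ∧ cs.length (r * u) + 1 = cs.length u := by
  unfold WL Nv at *
  set P := p * cs.simple q with hP
  have e1 : r * P = p := by
    rw [hr, hP]
    have := cs.simple_mul_simple_self q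
    calc p * cs.simple q * p⁻¹ * (p * cs.simple q) = p * (cs.simple q * cs.simple q) := by group
      _ = p := by rw [this, mul_one]
  have hrr : r * r = 1 := by
    rw [hr]
    have := cs.simple_mul_simple_self q
    calc p * cs.simple q * p⁻¹ * (p * cs.simple q * p⁻¹)
        = p * (cs.simple q * cs.simple q) * p⁻¹ := by group
      _ = 1 := by rw [this]; group
  have hrinv : r⁻¹ = r := inv_eq_of_mul_eq_one_left hrr
  have e2 : (r * u)⁻¹ * p = u⁻¹ * P := by
    rw [← e1, mul_inv_rev, hrinv]
    calc u⁻¹ * r * (r * P) = u⁻¹ * (r * r) * P := by group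
      _ = _ := by rw [hrr, mul_one]
  have h1 := cs.length_mul_le (r * u) ((r * u)⁻¹ * p)
  rw [mul_inv_cancel_left] at h1
  rw [e2] at h1 ⊢
  constructor <;> omega

/-- **The main lemma.** -/
theorem main_lemma {c h u : W} {s : B} (huc : WL cs u c) (huh : ¬ WL cs u h)
    (hmin : ∀ x, WL cs x c → cs.length x < cs.length u → WL cs x h)
    (hs : cs.length (u * cs.simple s) < cs.length u) :
    ∀ (n : ℕ) (p : W), WL cs p c → cs.length c = cs.length p + n →
      Nv cs p (u * cs.simple s * u⁻¹) → WL cs u p := by
  have hv : WL cs (u * cs.simple s) h := by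
    apply hmin _ _ hs
    exact (wl_mul_simple cs hs).trans cs huc
  set t := u * cs.simple s * u⁻¹ with ht
  have htr : cs.IsReflection t := ⟨u, s, ht⟩
  -- inversions of u
  have hinv : ∀ r, cs.IsReflection r → r ≠ t → Nv cs u r → Nv cs (u * cs.simple s) r := by
    intro r hr hrt hru
    have e1 : u * cs.simple s * cs.simple s = u := cs.simple_mul_simple_cancel_right s
    have h2 := nv_mul_simple cs hr s (u * cs.simple s) (by
      intro h3
      apply hrt
      rw [h3, mul_inv_rev, cs.inv_simple, cs.simple_mul_simple_cancel_right, ht]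
      simp only [mul_assoc])
    rw [e1] at h2
    exact h2.mp hru
  have hth : ¬ Nv cs h t := by
    intro h1
    apply huh
    rw [wl_iff]
    intro r hr hru
    by_cases hrt : r = t
    · rw [hrt]; exact h1
    · exact hv.nv cs (hinv r hr hrt hru)
  intro n
  induction n with
  | zero =>
    intro p hpc hlen _
    have h1 : p = c := by
      unfold WL at hpc
      have h2 : cs.length (p⁻¹ * c) = 0 := by omega
      rw [cs.length_eq_zero_iff] at h2
      calc p = p * 1 := (mul_one p).symm
        _ = p * (p⁻¹ * c) := by rw [h2]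
        _ = c := by group
    rw [h1]
    exact huc
  | succ n ih =>
    intro p hpc hlen hpt
    have hpc' := hpc
    unfold WL at hpc'
    have h1 : p⁻¹ * c ≠ 1 := by
      intro h2
      rw [h2, cs.length_one] at hpc'
      omega
    obtain ⟨q, hq⟩ := cs.exists_leftDescent_of_ne_one h1
    rw [cs.isLeftDescent_iff] at hq
    have e1 : (p * cs.simple q)⁻¹ * c = cs.simple q * (p⁻¹ * c) := by
      rw [mul_inv_rev, cs.inv_simple, mul_assoc]
    have h2 : cs.length (p * cs.simple q) = cs.length p + 1 := by
      have h3 := cs.length_mul_le (p * cs.simple q) ((p * cs.simple q)⁻¹ * c)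
      rw [mul_inv_cancel_left, e1] at h3
      have h4 := cs.length_mul_simple p q
      omega
    have h3 : WL cs (p * cs.simple q) c := by
      unfold WL
      rw [e1]
      omega
    have h4 : WL cs p (p * cs.simple q) := by
      unfold WL
      rw [inv_mul_cancel_left, cs.length_simple, h2]
    have h5 : WL cs u (p * cs.simple q) := ih _ h3 (by omega) (h4.nv cs hpt)
    set r := p * cs.simple q * p⁻¹ with hr
    have hrr : cs.IsReflection r := ⟨p, q, hr⟩
    have hrp : ¬ Nv cs p r := by
      unfold Nv
      have e2 : r * p = p * cs.simple q := by rw [hr]; group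
      rw [e2]
      omega
    by_cases hru : Nv cs u r
    · exfalso
      obtain ⟨hx1, hx2⟩ := exchange_step cs h2 hr h5 hru
      have hrt : r ≠ t := by
        rintro h6
        rw [h6] at hrp
        exact hrp hpt
      have hxh : WL cs (r * u) h := hmin _ (hx1.trans cs hpc) (by omega)
      have hrh : Nv cs h r := hv.nv cs (hinv r hrr hrt hru)
      exact hth (closed_step cs hrr hs hru hrt hx2 hxh hrh)
    · rw [wl_iff]
      intro t' ht' hut'
      have h6 : t' ≠ r := by
        rintro rfl
        exact hru hut'
      exact (nv_mul_simple cs ht' q p h6).mp (h5.nv cs hut')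

end BP
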