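import Mathlib
import Pool.Agent.Helper98.BP.Weak

/-!
# Bruhat order and the join theorem (MP_272625_co)
-/

namespace BP

variable {B W : Type} [Group W] {M : CoxeterMatrix B} (cs : CoxeterSystem M W)

/-- a step of the Bruhat graph -/
def St (a b : W) : Prop := ∃ r, cs.IsReflection r ∧ b = r * a ∧ cs.length a < cs.length b

/-- Bruhat order -/
def Br (a b : W) : Prop := Relation.ReflTransGen (St cs) a b

theorem St.simple {a b : W} (h : St cs a b) (s : B) :
    (b = cs.simple s * a) ∨ St cs (cs.simple s * a) (cs.simple s * b) := by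
  obtain ⟨r, hr, rfl, hl⟩ := h
  by_cases hrs : r = cs.simple s
  · left
    rw [hrs]
  · right
    have hr' : cs.IsReflection (cs.simple s * r * cs.simple s) := by
      have := hr.conj (cs.simple s)
      rwa [cs.inv_simple] at this
    have e : cs.simple s * (r * a) = cs.simple s * r * cs.simple s * (cs.simple s * a) := by
      rw [mul_assoc (cs.simple s * r), cs.simple_mul_simple_cancel_left, mul_assoc]
    refine ⟨_, hr', e, ?_⟩
    rw [e, ← not_nv_iff cs hr', nv_simple_mul cs hr s hrs, not_nv_iff cs hr]
    exact hl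

theorem Br.L {a b : W} (h : Br cs a b) (s : B) :
    Br cs (cs.simple s * a) b ∨ Br cs (cs.simple s * a) (cs.simple s * b) := by
  unfold Br at *
  induction h using Relation.ReflTransGen.head_induction_on with
  | refl => exact Or.inr Relation.ReflTransGen.refl
  | head h1 h2 ih =>
    rcases h1.simple cs s with h3 | h3
    · left
      rw [← h3]
      exact h2
    · rcases ih with h4 | h4
      · exact Or.inl (Relation.ReflTransGen.head h3 h4)
      · exact Or.inr (Relation.ReflTransGen.head h3 h4)

theorem Br.L' {a b : W} (h : Br cs a b) (s : B) :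
    Br cs a (cs.simple s * b) ∨ Br cs (cs.simple s * a) (cs.simple s * b) := by
  unfold Br at *
  induction h with
  | refl => exact Or.inr Relation.ReflTransGen.refl
  | tail h1 h2 ih =>
    rcases h2.simple cs s with h3 | h3
    · left
      rw [h3, cs.simple_mul_simple_cancel_left]
      exact h1
    · rcases ih with h4 | h4
      · exact Or.inl (Relation.ReflTransGen.tail h4 h3)
      · exact Or.inr (Relation.ReflTransGen.tail h4 h3)

theorem St.s {b : W} {s : B} (h : cs.length b < cs.length (cs.simple s * b)) :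
    St cs b (cs.simple s * b) := ⟨_, cs.isReflection_simple s, rfl, h⟩

/-- (1) -/
theorem Br.up {a b : W} (h : Br cs a b) {s : B} (hb : cs.length (cs.simple s * b) < cs.length b) :
    Br cs (cs.simple s * a) b := by
  rcases h.L cs s with h1 | h1
  · exact h1
  · refine Relation.ReflTransGen.tail h1 ?_
    have h2 := St.s cs (b := cs.simple s * b) (s := s) (by
      rwa [cs.simple_mul_simple_cancel_left])
    rwa [cs.simple_mul_simple_cancel_left] at h2

/-- (2) -/
theorem Br.down {a b : W} (h : Br cs a b) {s : B} (ha : cs.length (cs.simple s * a) < cs.length a) :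
    Br cs (cs.simple s * a) (cs.simple s * b) := by
  rcases h.L' cs s with h1 | h1
  · refine Relation.ReflTransGen.head ?_ h1
    have h2 := St.s cs (b := cs.simple s * a) (s := s) (by
      rwa [cs.simple_mul_simple_cancel_left])
    rwa [cs.simple_mul_simple_cancel_left] at h2
  · exact h1

/-- (3) -/
theorem Br.both {a b : W} (h : Br cs a b) {s : B}
    (hb : cs.length b < cs.length (cs.simple s * b)) :
    Br cs (cs.simple s * a) (cs.simple s * b) := by
  rcases h.L cs s with h1 | h1
  · exact Relation.ReflTransGen.tail h1 (St.s cs hb)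
  · exact h1

theorem Br.le {a b : W} (h : Br cs a b) : a = b ∨ cs.length a < cs.length b := by
  unfold Br at h
  induction h with
  | refl => exact Or.inl rfl
  | tail _ h2 ih =>
    obtain ⟨r, _, _, h3⟩ := h2
    right
    rcases ih with rfl | h4
    · exact h3
    · exact h4.trans h3

/-- cancellation of a common weak order prefix -/
theorem Br.cancel : ∀ (n : ℕ) (v a b : W), cs.length v = n → WL cs v a → Br cs a b →
    Br cs (v⁻¹ * a) (v⁻¹ * b) := by
  intro n
  induction n with
  | zero =>
    intro v a b hv _ h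
    rw [cs.length_eq_zero_iff] at hv
    rwa [hv, inv_one, one_mul, one_mul]
  | succ n ih =>
    intro v a b hv hw h
    have hv1 : v ≠ 1 := by
      rintro rfl
      rw [cs.length_one] at hv
      omega
    obtain ⟨s, hs⟩ := cs.exists_leftDescent_of_ne_one hv1
    have hs0 : Nv cs v (cs.simple s) := hs
    rw [cs.isLeftDescent_iff] at hs
    have ha := hw.nv cs hs0
    unfold Nv at ha
    have ha' := cs.length_simple_mul a s
    have h1 := h.down cs ha
    have e : ∀ x : W, (cs.simple s * v)⁻¹ * (cs.simple s * x) = v⁻¹ * x := by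
      intro x
      rw [mul_inv_rev, mul_assoc, inv_mul_cancel_left]
    have h2 := ih (cs.simple s * v) (cs.simple s * a) (cs.simple s * b) (by omega) (by
      unfold WL at *
      rw [e]
      omega) h1
    rwa [e, e] at h2

/-- multiplication by a common weak order prefix -/
theorem Br.mul : ∀ (n : ℕ) (v a b : W), cs.length v = n →
    cs.length (v * b) = cs.length v + cs.length b → Br cs a b → Br cs (v * a) (v * b) := by
  intro n
  induction n with
  | zero =>
    intro v a b hv _ h
    rw [cs.length_eq_zero_iff] at hv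
    rwa [hv, one_mul, one_mul]
  | succ n ih =>
    intro v a b hv hw h
    have hv1 : v ≠ 1 := by
      rintro rfl
      rw [cs.length_one] at hv
      omega
    obtain ⟨s, hs⟩ := cs.exists_leftDescent_of_ne_one hv1
    rw [cs.isLeftDescent_iff] at hs
    have h0 := cs.length_mul_le (cs.simple s * v) b
    have h1 := cs.length_simple_mul (v * b) s
    rw [← mul_assoc] at h1
    have h2 := ih (cs.simple s * v) a b (by omega) (by omega) h
    have h3 := h2.both cs (s := s) (by
      rw [mul_assoc, cs.simple_mul_simple_cancel_left, ← mul_assoc]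
      omega)
    rwa [mul_assoc, mul_assoc, cs.simple_mul_simple_cancel_left,
      cs.simple_mul_simple_cancel_left] at h3

/-- **One step**: `z` below `c`; there is a label outside one of `p₁`, `p₂`. -/
theorem step {c z p₁ p₂ : W} (hp₁ : WL cs p₁ c) (hp₂ : WL cs p₂ c)
    (hdisj : ∀ s : B, ¬ (Nv cs p₁ (cs.simple s) ∧ Nv cs p₂ (cs.simple s)))
    (hz : Br cs z c) (hne : z ≠ c) :
    ∃ r, cs.IsReflection r ∧ Nv cs c r ∧ ¬ Nv cs z r ∧ ¬ (Nv cs p₁ r ∧ Nv cs p₂ r) ∧
      Br cs (r * z) c := by
  classical
  have hcz : ¬ WL cs c z := by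
    intro h
    have h1 := h.le cs
    rcases hz.le cs with h2 | h2
    · exact hne h2
    · omega
  -- minimal element
  let P : ℕ → Prop := fun n => ∃ x, WL cs x c ∧ ¬ WL cs x z ∧ cs.length x = n
  have hP : ∃ n, P n := ⟨_, c, WL.refl cs c, hcz, rfl⟩
  obtain ⟨u, huc, huz, hlen⟩ := Nat.find_spec hP
  have hmin : ∀ x, WL cs x c → cs.length x < cs.length u → WL cs x z := by
    intro x hx hl
    by_contra hn
    rw [hlen] at hl
    exact Nat.find_min hP hl ⟨x, hx, hn, rfl⟩
  have hu1 : u ≠ 1 := by
    rintro rfl
    exact huz (WL.one cs z)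
  obtain ⟨s, hs⟩ := cs.exists_rightDescent_of_ne_one hu1
  have hs' : cs.length (u * cs.simple s) < cs.length u := hs
  have hs2 := cs.length_mul_simple u s
  have hvc : WL cs (u * cs.simple s) c := (wl_mul_simple cs hs').trans cs huc
  have hvz : WL cs (u * cs.simple s) z := hmin _ hvc hs'
  set t := u * cs.simple s * u⁻¹ with ht
  have htr : cs.IsReflection t := ⟨u, s, ht⟩
  have hut : Nv cs u t := by
    unfold Nv
    have e : t * u = u * cs.simple s := by rw [ht]; group
    rw [e]
    exact hs'
  have hth : ¬ Nv cs z t := by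
    intro h1
    apply huz
    rw [wl_iff]
    intro r hr hru
    by_cases hrt : r = t
    · rw [hrt]; exact h1
    · refine hvz.nv cs ?_
      have e1 : u * cs.simple s * cs.simple s = u := cs.simple_mul_simple_cancel_right s
      have h2 := nv_mul_simple cs hr s (u * cs.simple s) (by
        intro h3
        apply hrt
        rw [h3, mul_inv_rev, cs.inv_simple, cs.simple_mul_simple_cancel_right, ht]
        simp only [mul_assoc])
      rw [e1] at h2
      exact h2.mp hru
  refine ⟨t, htr, huc.nv cs hut, hth, ?_, ?_⟩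
  · rintro ⟨h1, h2⟩
    have h3 := main_lemma cs huc huz hmin hs' (cs.length c - cs.length p₁) p₁ hp₁
      (by have := hp₁.le cs; omega) h1
    have h4 := main_lemma cs huc huz hmin hs' (cs.length c - cs.length p₂) p₂ hp₂
      (by have := hp₂.le cs; omega) h2
    obtain ⟨s', hs1⟩ := cs.exists_leftDescent_of_ne_one hu1
    have h5 : Nv cs u (cs.simple s') := hs1
    exact hdisj s' ⟨h3.nv cs h5, h4.nv cs h5⟩
  · set v := u * cs.simple s with hv
    have h1 := Br.cancel cs _ v z c rfl hvz hz
    have h2 : cs.length (cs.simple s * (v⁻¹ * c)) < cs.length (v⁻¹ * c) := by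
      have e : cs.simple s * (v⁻¹ * c) = u⁻¹ * c := by
        rw [hv, mul_inv_rev, cs.inv_simple, mul_assoc, cs.simple_mul_simple_cancel_left]
      rw [e]
      unfold WL at huc hvc
      omega
    have h3 := h1.up cs h2
    have h4 := Br.mul cs _ v _ _ rfl (by
      rw [mul_inv_cancel_left]
      unfold WL at hvc
      omega) h3
    rw [mul_inv_cancel_left] at h4
    have e : v * (cs.simple s * (v⁻¹ * z)) = t * z := by
      rw [hv, ht, mul_inv_rev, cs.inv_simple]
      have h5 := cs.simple_mul_simple_self s
      calc u * cs.simple s * (cs.simple s * (cs.simple s * u⁻¹ * z))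
          = u * (cs.simple s * cs.simple s) * cs.simple s * u⁻¹ * z := by group
        _ = _ := by rw [h5, mul_one]
    rwa [e] at h4

/-- a Bruhat path from `1` to `x` with labels in `N(u) ∪ N(v)` -/
def Path (u v x : W) : Prop := ∃ (n : ℕ) (f : ℕ → W), f 0 = 1 ∧ f n = x ∧
  ∀ i, i < n → ∃ r : W, cs.IsReflection r ∧ (Nv cs u r ∨ Nv cs v r) ∧
    f (i + 1) = r * f i ∧ cs.length (f i) < cs.length (f (i + 1))

theorem Path.extend {u v x r : W} (h : Path cs u v x) (hr : cs.IsReflection r)
    (hl : Nv cs u r ∨ Nv cs v r) (hx : cs.length x < cs.length (r * x)) :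
    Path cs u v (r * x) := by
  obtain ⟨n, f, h0, hn, hf⟩ := h
  refine ⟨n + 1, fun i => if i ≤ n then f i else r * x, ?_, ?_, ?_⟩
  · simp [h0]
  · simp
  · intro i hi
    rcases Nat.lt_or_ge i n with h1 | h1
    · obtain ⟨r', a1, a2, a3, a4⟩ := hf i h1
      refine ⟨r', a1, a2, ?_, ?_⟩
      · simp only [if_pos h1.le, if_pos (show i + 1 ≤ n by omega)]
        exact a3
      · simp only [if_pos h1.le, if_pos (show i + 1 ≤ n by omega)]
        exact a4
    · have h2 : i = n := by omega
      subst h2
      refine ⟨r, hr, hl, ?_, ?_⟩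
      · simp [hn]
      · simp [hn, hx]

/-- **All elements `x` with `j⁻¹ x ≤ j⁻¹` are reached.** -/
theorem reach {u v j : W} (hu : WL cs u j) (hv : WL cs v j)
    (hj : ∀ w, WL cs u w → WL cs v w → WL cs j w) :
    ∀ (n : ℕ) (x : W), cs.length x = n → Br cs (j⁻¹ * x) j⁻¹ → Path cs u v x := by
  have hp : ∀ u : W, WL cs u j → WL cs (j⁻¹ * u) j⁻¹ := by
    intro u hu
    unfold WL at *
    have e1 : (j⁻¹ * u)⁻¹ * j⁻¹ = u⁻¹ := by group
    have e2 : cs.length (j⁻¹ * u) = cs.length (u⁻¹ * j) := by
      rw [← cs.length_inv (j⁻¹ * u)]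
      congr 1
      group
    rw [e1, e2, cs.length_inv, cs.length_inv]
    omega
  have hdisj : ∀ s : B, ¬ (Nv cs (j⁻¹ * u) (cs.simple s) ∧ Nv cs (j⁻¹ * v) (cs.simple s)) := by
    rintro s ⟨h1, h2⟩
    have key : ∀ u : W, WL cs u j → Nv cs (j⁻¹ * u) (cs.simple s) →
        WL cs u (j * cs.simple s) ∧ cs.length (j * cs.simple s) + 1 = cs.length j := by
      intro u hu h
      unfold WL Nv at *
      have e1 : cs.length (u⁻¹ * (j * cs.simple s)) = cs.length (cs.simple s * (j⁻¹ * u)) := by
        rw [← cs.length_inv]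
        congr 1
        rw [mul_inv_rev, mul_inv_rev, cs.inv_simple, inv_inv, mul_assoc]
      have e2 : cs.length (j⁻¹ * u) = cs.length (u⁻¹ * j) := by
        rw [← cs.length_inv (j⁻¹ * u)]
        congr 1
        group
      have h3 := cs.length_mul_le u (u⁻¹ * (j * cs.simple s))
      rw [mul_inv_cancel_left] at h3
      have h4 := cs.length_mul_simple j s
      constructor <;> omega
    have h3 := hj (j * cs.simple s) (key u hu h1).1 (key v hv h2).1
    have h4 := h3.le cs
    have h5 := (key u hu h1).2
    omega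
  intro n
  induction n using Nat.strong_induction_on with
  | _ n ih =>
    intro x hx hbr
    by_cases hx1 : x = 1
    · subst hx1
      exact ⟨0, fun _ => 1, rfl, rfl, fun i hi => absurd hi (Nat.not_lt_zero i)⟩
    have hne : j⁻¹ * x ≠ j⁻¹ := by
      intro h
      apply hx1
      have h1 := congrArg (fun y => j * y) h
      simpa using h1
    obtain ⟨r, hr, hrc, hrz, hrp, hbr'⟩ := step cs (hp u hu) (hp v hv) hdisj hbr hne
    set τ := j * r * j⁻¹ with hτ
    have hτr : cs.IsReflection τ := hr.conj j
    have hττ := hτr.mul_self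
    have e0 : j⁻¹ * τ * j = r := by rw [hτ]; group
    -- τ is an inversion of j
    have h1 : Nv cs j τ := by
      unfold Nv at *
      have e1 : cs.length (τ * j) = cs.length (r * j⁻¹) := by
        rw [← cs.length_inv]
        congr 1
        rw [hτ]
        rw [mul_inv_rev, mul_inv_rev, mul_inv_rev, inv_inv, hr.inv]
        group
      rw [e1, ← cs.length_inv j]
      exact hrc
    have h2 : ∀ u : W, ¬ Nv cs (j⁻¹ * u) r → Nv cs u τ := by
      intro u h
      have h3 := nv_mul cs hτr j (j⁻¹ * u)
      rw [e0, mul_inv_cancel_left] at h3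
      rw [h3]
      tauto
    have h3 : Nv cs u τ ∨ Nv cs v τ := by
      by_cases h4 : Nv cs (j⁻¹ * u) r
      · exact Or.inr (h2 v (fun h5 => hrp ⟨h4, h5⟩))
      · exact Or.inl (h2 u h4)
    have h4 : Nv cs x τ := by
      have h5 := nv_mul cs hτr j (j⁻¹ * x)
      rw [e0, mul_inv_cancel_left] at h5
      rw [h5]
      tauto
    have h5 : Path cs u v (τ * x) := by
      refine ih (cs.length (τ * x)) ?_ (τ * x) rfl ?_
      · unfold Nv at h4
        omega
      · have e1 : j⁻¹ * (τ * x) = r * (j⁻¹ * x) := by rw [hτ]; group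
        rw [e1]
        exact hbr'
    have e2 : τ * (τ * x) = x := by rw [← mul_assoc, hττ, one_mul]
    have h6 := h5.extend cs hτr h3 (by
      rw [e2]
      exact h4)
    rwa [e2] at h6

/-- the join theorem, first half -/
theorem path_of_nv {u v j : W} (hu : WL cs u j) (hv : WL cs v j)
    (hj : ∀ w, WL cs u w → WL cs v w → WL cs j w) {t : W} (ht : cs.IsReflection t)
    (h : Nv cs j t) : Path cs u v t := by
  refine reach cs hu hv hj _ t rfl ?_
  refine Relation.ReflTransGen.single ⟨j⁻¹ * t * j, ?_, ?_, ?_⟩
  · have := ht.conj j⁻¹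
    rwa [inv_inv] at this
  · have := ht.mul_self
    calc j⁻¹ = j⁻¹ * (t * t) := by rw [this, mul_one]
      _ = _ := by group
  · unfold Nv at h
    have e1 : cs.length (j⁻¹ * t) = cs.length (t * j) := by
      rw [← cs.length_inv]
      congr 1
      rw [mul_inv_rev, inv_inv, ht.inv]
    rw [e1, cs.length_inv]
    exact h

/-- the join theorem, second half -/
theorem nv_of_path {u v j : W} (hu : WL cs u j) (hv : WL cs v j) {t : W}
    (ht : cs.IsReflection t) (h : Path cs u v t) : Nv cs j t := by
  obtain ⟨n, f, h0, hn, hf⟩ := h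
  have key : ∀ i, i ≤ n → cs.length (j⁻¹ * f i) + i ≤ cs.length j := by
    intro i
    induction i with
    | zero =>
      intro _
      rw [h0, mul_one, cs.length_inv, add_zero]
    | succ i ih =>
      intro hi
      have h1 := ih (by omega)
      obtain ⟨r, hr, hl, he, hlt⟩ := hf i (by omega)
      have h2 : Nv cs j r := by
        rcases hl with h3 | h3
        · exact hu.nv cs h3
        · exact hv.nv cs h3
      have h3 : ¬ Nv cs (f i) r := by
        rw [not_nv_iff cs hr, ← he]
        exact hlt
      have h4 := nv_mul cs hr j (j⁻¹ * f i)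
      rw [mul_inv_cancel_left] at h4
      have h5 : Nv cs (j⁻¹ * f i) (j⁻¹ * r * j) := by
        by_contra h6
        exact h3 (h4.mpr (by tauto))
      unfold Nv at h5
      have e : j⁻¹ * r * j * (j⁻¹ * f i) = j⁻¹ * f (i + 1) := by
        rw [he]; group
      rw [e] at h5
      omega
  have h1 := key n le_rfl
  rw [hn] at h1
  have hn0 : n ≠ 0 := by
    rintro rfl
    have h2 : t = 1 := by rw [← hn, h0]
    have h3 := ht.odd_length
    rw [h2, cs.length_one] at h3
    simp at h3
  unfold Nv
  have e1 : cs.length (j⁻¹ * t) = cs.length (t * j) := by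
    rw [← cs.length_inv]
    congr 1
    rw [mul_inv_rev, inv_inv, ht.inv]
  rw [← e1]
  omega

end BP
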